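import Mathlib
import Pool.Agent.TH69.MsZC
import Pool.Agent.TH69.MsS6

/-!
# Six generators decide local finiteness, for all exponents without large odd divisors

Outline.  The finite groups considered have exponent dividing `n`, and their simple sections are
generated by two elements.  Fix `c > 0` such that their nonabelian simple sections have order at
most `c`.  A finite group is called free if its nonabelian simple sections have order less than `c`;
the two-generated simple groups of order `c` are called large.  For a finite group `K` let `O(K)` be
the largest free normal subgroup, and let `F(K) / O(K)` be generated by the components (the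
subnormal simple subgroups) of `K / O(K)`.  The components are large, they commute pairwise, and
their centraliser is trivial.  The number of layers of `K` is `0` if `K` is free, and else the
number of layers of `K / F(K)` plus one.  Let `k = 2 * v + 2`, and let `G` be a group whose
subgroups with at most `k` generators (called small here) are finite groups of this kind, of
bounded order.

1. An element `e` of a finite group `K` lies in `O(K)` if it lies in `O(⟨e, y, z⟩)` for all `y, z`
(let `y` and `z` generate a component), and the same holds for `F`.  So the elements `e` with
`e ∈ O(⟨e, y, z⟩)` for all `y, z ∈ G`, and those with `e ∈ F(⟨e, y, z⟩)` for all `y, z ∈ G`, form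
characteristic subgroups `R ≤ R₁` of `G`.  The small subgroups of `R` are free, so `R` is treated by
induction on `c`, and the radical `R` of `G / R` is trivial.  The small subgroups `K` of `R₁` satisfy
`K = F(K)`.

2. By Burnside's theorem `c` has three prime divisors; let `p` be one of them whose `(v + 1)`-st
power does not divide `n`, and let `p ^ a` be the `p`-part of `n`.  Then `K` has at most `a` layers:
if `x ^ (p ^ (a - 1))`, where `x` is a `p`-element of `K / O(K)`, does not normalise a component
`T`, then the order of `x t` is divisible by `p ^ (a + 1)` for some `t ∈ T`; and the elements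
which normalise all components form a free group modulo `F(K)`, because `|Aut T| < |T| ^ 2` (`T` is
generated by two elements).

3. A finite group with more than `j` layers has a subgroup with more than `j` layers which is
generated by `2 * (j + 1)` elements.  So if the small subgroups of `G` have at most `j ≥ 2` layers
(`j ≤ v`), then those of `G / R₁` have at most `j - 1` layers: if `A` is generated by `2 * j`
elements, and `D` is the least normal subgroup of `A` such that `A / D` has at most `j - 1` layers,
then `D ≤ F(⟨A, y, z⟩)` for all `y, z ∈ G`, so `D ≤ R₁`.

4. So it suffices to consider groups `G` with `R = 1` whose small subgroups have at most one layer.  If `A` is a subgroup of a finite group `K` with at most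
one layer, without nontrivial free quotients, then `O(A) ≤ O(K)`.  Hence `O(A) = 1` if `A ≤ G` is
generated by four elements and has no nontrivial free quotients.  In particular two large simple
subgroups of `G` generate a direct product of large simple groups.  If `A`, `B` and `C` are large
simple subgroups, `A` and `B` commute, and `E` is a simple normal subgroup of `⟨A, C⟩` which does not
commute with `A`, then `E` and `B` commute; this is seen in `⟨A, B, C⟩`.  It follows that finitely
many large simple subgroups of `G` are contained in a direct product of finitely many large simple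
subgroups of `G`.  The small subgroups of `G / V`, where `V` is generated by the large simple
subgroups, are free: a minimal subgroup `A` of a small subgroup whose image is not free is
generated by two elements, so `O(A) = 1`, and `A` is a product of large simple groups.

5. If all small subgroups are soluble, the last nontrivial terms of the lower Fitting series of the
two-generator subgroups give normal subgroups of prime power exponent; this is as in
`ThreeGenerators` (under this problem), whose lemmas are used.  Modulo these subgroups, for all
primes dividing `n`, the lower Fitting series are shorter.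
-/

set_option autoImplicit false

namespace Pool.Agent.Results.MP_544bd1_al.AllExponents

open Pool.Agent.H32BU Pool.Agent.W629 Pool.Agent.TH69.Og Pool.Agent.TH69.Ms Pool.Agent.TH69.Ms.X

universe u

/-- `n ∈ 𝓛`: every group satisfying `x ^ n = 1` is locally finite. -/
def InL (n : ℕ) : Prop := ∀ (G : Type u) [Group G], (∀ x : G, x ^ n = 1) →
  ∀ S : Set G, S.Finite → Finite (Subgroup.closure S)

/-- The free Burnside group `B_{m,n}`: the free group of rank `m` modulo the normal closure of all
`n`-th powers. -/
abbrev B (m n : ℕ) : Type :=
  FreeGroup (Fin m) ⧸ Subgroup.normalClosure (Set.range fun w : FreeGroup (Fin m) => w ^ n)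

/-- At most two primes have a `j`-th power dividing `n`. -/
def AtMostTwo (j n : ℕ) : Prop :=
  ∃ p q : ℕ, ∀ r : ℕ, r.Prime → r ^ j ∣ n → r = p ∨ r = q

/-- Every simple section `X / K` (`K` normal in the subgroup `X`) of `H` is generated by two
elements. -/
def TwoGenSections (H : Type u) [Group H] : Prop :=
  ∀ (X : Subgroup H) (K : Subgroup X) [K.Normal], IsSimpleGroup (X ⧸ K) →
    ∃ a b : X ⧸ K, Subgroup.closure {a, b} = ⊤

/-- Every prime power greater than `4` dividing `n` is in `𝓛`. -/
def PrimePowersInL (n : ℕ) : Prop :=
  ∀ p k : ℕ, p.Prime → p ^ k ∣ n → 4 < p ^ k → InL.{u} (p ^ k)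

/-- All subgroups of `G` generated by at most `k` elements are finite, of order at most `N`, and
their simple sections are generated by two elements. -/
def Small (k N : ℕ) (G : Type u) [Group G] : Prop :=
  ∀ s : Finset G, s.card ≤ k → Finite (Subgroup.closure (s : Set G)) ∧
    Nat.card (Subgroup.closure (s : Set G)) ≤ N ∧
    TwoGenSections (Subgroup.closure (s : Set G))

/-- There is a number `c` such that every finite subset of `M` lies in a product of finitely many
pairwise commuting nonabelian simple subgroups of order `c` of `M`. -/
def LocallySemisimple {G : Type u} [Group G] (M : Subgroup G) : Prop :=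
  ∃ c : ℕ, 0 < c ∧ ∀ s : Finset G, (s : Set G) ⊆ M → ∃ D : Set (Subgroup G), D.Finite ∧
    (∀ T ∈ D, T ≤ M ∧ Nat.card T = c ∧ IsSimpleGroup T ∧ ∃ a b : T, a * b ≠ b * a) ∧
    (∀ A ∈ D, ∀ B ∈ D, A ≠ B → ∀ a ∈ A, ∀ b ∈ B, a * b = b * a) ∧
    (s : Set G) ⊆ (sSup D : Subgroup G)

/-- `G` has a series `1 = M 0 ≤ M 1 ≤ ⋯ ≤ M l = G` of characteristic subgroups such that, for each
`i < l`, the exponent of `M (i + 1) / M i` divides a prime power dividing `n`, or `M (i + 1) / M i`
is locally semisimple. -/
def HasSeries (n l : ℕ) (G : Type) [Group G] : Prop :=
  ∃ M : ℕ → Subgroup G, M 0 = ⊥ ∧ M l = ⊤ ∧ (∀ i, (M i).Characteristic) ∧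
    ∀ i < l, M i ≤ M (i + 1) ∧
      ((∃ p a : ℕ, p.Prime ∧ p ^ a ∣ n ∧ ∀ x ∈ M (i + 1), x ^ p ^ a ∈ M i) ∨
        ∃ (Q : Type) (_ : Group Q) (f : G →* Q), Function.Surjective f ∧ f.ker = M i ∧
          LocallySemisimple ((M (i + 1)).map f))

/-- (0) If all odd divisors of `n ≥ 1` are less than `3375`, then at most two primes have a cube
dividing `n`. Let `n ≥ 1` and `v ≥ 2` be such that at most two primes have a `(v + 1)`-st power
dividing `n`. (1) Let `G` be a group of exponent dividing `n` all of whose subgroups generated by
`2 * v + 2` elements are finite, of order at most `N`, with simple sections which are generated by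
two elements. Then `G` has a series of characteristic subgroups, of length
`(3 * v) ^ (N + 1) * (N * (n + 1) + 1)`, such that the exponent of each factor divides a prime power
which divides `n` or the factor is locally semisimple. (2) If
moreover all prime powers greater than `4` dividing `n` are in `𝓛`, then such a group `G` is locally
finite. (3) If all prime powers greater than `4` dividing `n` are in `𝓛`, the group
`B_{2 * v + 2, n}` is finite, and the simple sections of `B_{2 * v + 2, n}` are generated by two
elements, then `n ∈ 𝓛`. -/
theorem result :
    (∀ n : ℕ, 1 ≤ n → (∀ m : ℕ, Odd m → m ∣ n → m < 3375) → AtMostTwo 3 n) ∧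
    ∀ n v : ℕ, 1 ≤ n → 2 ≤ v → AtMostTwo (v + 1) n →
      (∀ (G : Type) [Group G], (∀ x : G, x ^ n = 1) → ∀ N : ℕ, Small (2 * v + 2) N G →
        HasSeries n ((3 * v) ^ (N + 1) * (N * (n + 1) + 1)) G) ∧
      (∀ (G : Type u) [Group G], (∀ x : G, x ^ n = 1) → ∀ N : ℕ, Small (2 * v + 2) N G →
        PrimePowersInL.{u} n → ∀ S : Set G, S.Finite → Finite (Subgroup.closure S)) ∧
      (PrimePowersInL.{u} n → Finite (B (2 * v + 2) n) → TwoGenSections (B (2 * v + 2) n) →
        InL.{u} n) := by
  refine ⟨fun n hn h => small_odd hn h, fun n v hn hv h2 => ⟨?_, ?_, ?_⟩⟩
  · intro G _ hG N hN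
    exact cs_HK hn (by omega) (by omega) le_rfl h2 trivial (N + 1) G (HK.of_tame hG hN)
  · intro G _ hG N hN hL S hSf
    exact lf_all_u hn (by omega) le_rfl (locfin_qp hL) h2 G hG hN S hSf
  · intro h3 h4 h5
    exact (inL_iff x_LFD _).2 (locfin_all hn (by omega) le_rfl (locfin_qp h3) h2 h4 h5)

end Pool.Agent.Results.MP_544bd1_al.AllExponents
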