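import Mathlib
import Pool.Agent.TH69.OmB

/-!
# Groups of exponent `n`: normal series of bounded length with factors of prime power exponent

No assumption is made on the prime powers dividing `n` (they need not be in `𝓛`, and the groups need
not be locally finite).

Outline.  Let `Rad_p(G)` be the largest normal subgroup of `G` whose exponent divides the `p`-part
`p ^ a` of `n`; it is the set of the `x` with `x ^ (p ^ a) = 1` such that `(x z) ^ (p ^ a) = 1` for
all `z` with `z ^ (p ^ a) = 1`.  Let `1 = R_0(G) ≤ R_1(G) ≤ …` be the series with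
`R_{i+1}(G) / R_i(G) = Rad_{p_i}(G / R_i(G))`, where each prime is `p_i` for infinitely many `i`.
Suppose that for each `m` there is a group `G_m` in the class such that there is an element
`f_m ∉ R_m(G_m)`.  Let `D` be the direct product of the groups `G_m` and let `N` be the set of the
`x ∈ D` such that for some `i` we have `x_m ∈ R_i(G_m)` for almost all `m`.  Then `f = (f_m)` is not
in `N`.  The group `D / N` is in the class, and it has no nontrivial normal subgroup of prime power
exponent: let `x ∈ D` be such that `x ^ (p ^ a) ∈ N`, but `x ∉ N`.  Then there are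
`m_1 < m_2 < …` and `i_1 < i_2 < …` such that `x_m` is not in `R_{i+1}(G_m)`, where `m = m_j`,
`i = i_j` and `p_i = p`, so there is `z_m ∈ G_m` with `z_m ^ (p ^ a) = 1` (by the Chinese remainder
theorem this can be achieved in `G_m`, not only modulo `R_i(G_m)`) such that `(x_m z_m) ^ (p ^ a)` is
not in `R_i(G_m)`.  With `z_m = 1` for the other `m`, this gives `z ∈ D` with `z ^ (p ^ a) = 1` and
`(x z) ^ (p ^ a) ∉ N`, so `x N` is not in `Rad_p(D / N)`.

For the second part, the class consists of the groups of exponent `n` in which all pairs of elements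
satisfy the relations in a fixed normal subgroup of finite index of the free group of rank two; that
a nontrivial group of this class has a nontrivial normal subgroup of prime power exponent is
`TwoGenerators` (under this problem).
-/

set_option autoImplicit false

namespace Pool.Agent.Results.MP_544bd1_al.BoundedSeries

open Pool.Agent.TH69.Og Pool.Agent.TH69.Ok Pool.Agent.TH69.Om

universe u

/-- The free Burnside group `B_{m,n}`: the free group of rank `m` modulo the normal closure of all
`n`-th powers. -/
abbrev B (m n : ℕ) : Type :=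
  FreeGroup (Fin m) ⧸ Subgroup.normalClosure (Set.range fun w : FreeGroup (Fin m) => w ^ n)

/-- The exponents treated in the second part: `n` is not divisible by `2 ^ m * (2 ^ m - 1) ^ 2` for
any `m ≥ 2`, and there are at most two odd primes whose square divides `n`. -/
def Admissible (n : ℕ) : Prop :=
  (∀ m : ℕ, 2 ≤ m → ¬ 2 ^ m * (2 ^ m - 1) ^ 2 ∣ n) ∧
    ∃ p q : ℕ, ∀ r : ℕ, r.Prime → r ≠ 2 → r ^ 2 ∣ n → r = p ∨ r = q

/-- `G` has a normal series `1 = N 0 ≤ N 1 ≤ … ≤ N l = G` such that each factor has an exponent
dividing a prime power which divides `n`. -/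
def HasSeries (n l : ℕ) (G : Type u) [Group G] : Prop :=
  ∃ N : ℕ → Subgroup G, N 0 = ⊥ ∧ N l = ⊤ ∧ ∀ i, (N i).Normal ∧ N i ≤ N (i + 1) ∧
    ∃ p k : ℕ, p.Prime ∧ p ^ k ∣ n ∧ ∀ x ∈ N (i + 1), x ^ p ^ k ∈ N i

/-- (1) Let `n ≥ 1` and let `𝒱` be a class of groups of exponent dividing `n` which is closed under
quotients and countable direct products. If each nontrivial group in `𝒱` has a nontrivial normal
subgroup whose exponent divides a prime power dividing `n`, then there is `l` such that each group
in `𝒱` has a normal series of length `l` all of whose factors have such exponents. (2) Let `n ≥ 1`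
be admissible. (a) For each `c` there is `l` such that each group of exponent dividing `n` whose
two-generator subgroups have order at most `c` (and are soluble, if `n` has more than two prime
divisors) has such a series of length `l`. (b) If the two-generator free Burnside group `B_{2,n}` is
finite (and soluble, if `n` has more than two prime divisors), then there is `l` such that every
group of exponent dividing `n` has such a series of length `l`. -/
theorem result :
    (∀ n : ℕ, 1 ≤ n → ∀ 𝒱 : (G : Type u) → [Group G] → Prop,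
      (∀ (G : Type u) [Group G], 𝒱 G → ∀ x : G, x ^ n = 1) →
      (∀ (G : Type u) [Group G] (N : Subgroup G) [N.Normal], 𝒱 G → 𝒱 (G ⧸ N)) →
      (∀ (G : ℕ → Type u) [∀ i, Group (G i)], (∀ i, 𝒱 (G i)) → 𝒱 (∀ i, G i)) →
      (∀ (G : Type u) [Group G], 𝒱 G → Nontrivial G → ∃ p k : ℕ, p.Prime ∧ p ^ k ∣ n ∧
        ∃ N : Subgroup G, N.Normal ∧ N ≠ ⊥ ∧ ∀ x ∈ N, x ^ p ^ k = 1) →
      ∃ l : ℕ, ∀ (G : Type u) [Group G], 𝒱 G → HasSeries n l G) ∧
    ∀ n : ℕ, 1 ≤ n → Admissible n →
      (∀ c : ℕ, ∃ l : ℕ, ∀ (G : Type u) [Group G], (∀ x : G, x ^ n = 1) →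
        (∀ x y : G, Finite (Subgroup.closure {x, y}) ∧
          Nat.card (Subgroup.closure {x, y}) ≤ c) →
        (n.primeFactors.card ≤ 2 ∨ ∀ x y : G, Group.IsSolvable (Subgroup.closure {x, y})) →
        HasSeries n l G) ∧
      (Finite (B 2 n) → (n.primeFactors.card ≤ 2 ∨ Group.IsSolvable (B 2 n)) →
        ∃ l : ℕ, ∀ (G : Type u) [Group G], (∀ x : G, x ^ n = 1) → HasSeries n l G) := by
  refine ⟨fun n hn 𝒱 h1 h2 h3 h4 => ?_, fun n hn hA => ?_⟩
  · obtain ⟨l, hl⟩ := principle (by omega) 𝒱 h1 h3 h2 h4
    exact ⟨l, fun G _ hG => series (hl G hG)⟩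
  · have T : TrS n := trS' (by omega) ⟨hA.1, hA.2⟩
    refine ⟨fun c => ?_, fun hf hs => ?_⟩
    · obtain ⟨l, hl⟩ := bounded_card.{u} (by omega) T c
      exact ⟨l, fun G _ hG h5 h6 => series (hl G hG h5 h6)⟩
    · obtain ⟨l, hl⟩ := bounded_B.{u} (by omega) T hf hs
      exact ⟨l, fun G _ hG => series (hl G hG)⟩

end Pool.Agent.Results.MP_544bd1_al.BoundedSeries
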