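import Mathlib
import Pool.Agent.TH69.MtnH
import Pool.Agent.TH69.OmC

/-!
# Groups of finite exponent whose two-generator subgroups are finite and metanilpotent, or finite of
# type `(2, q, 2)`

Outline for metanilpotent subgroups.  Let `G` have exponent `n`, and let all two-generator subgroups
be finite and metanilpotent.  For a prime `s` let `R_s` be the set of the `s`-elements `e` such that
`e z` is an `s`-element for all `s`-elements `z`; it is the largest normal `s`-subgroup.  Suppose
that all `R_s` are trivial and `G` is not.  Each nontrivial `r`-element `h` then acts nontrivially on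
some finite `s`-subgroup, `s ≠ r`; let `U` be minimal among these.  For the largest prime `r` which
divides the order of an element, `|U|` is not a prime, and the two-generator subgroups
`⟨h z, v u⟩` and `⟨h, c t⟩` for suitable `u, z, c` in `U` and suitable `v, t` give a
contradiction.

Outline for type `(2, q, 2)`.  Let `q` be an odd prime, let `G` have exponent `n = 2 ^ a * q ^ b`,
let its two-generator subgroups be finite of type `(2, q, 2)`, and let `G` have no nontrivial normal
`2`-subgroup.

The centraliser lemma: if `s` is a `q`-element, `y` any element and `τ` a `2`-element which commutes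
with `s` and lies in the subgroup generated by the `q`-elements of `⟨s, y⟩`, then `τ = 1`.  For if
`z` is a `2`-element which commutes with `s`, then `τ` lies in `O_2` of `⟨s z, y⟩`, so `τ z` is a
`2`-element, and this puts `τ` into a normal `2`-subgroup of `G`.

The step: let `a`, `b` be involutions with `(a b) ^ (2 ^ (m + 2)) = 1` and
`z = (a b) ^ (2 ^ (m + 1)) ≠ 1`, such that no `q`-element `s ≠ 1` is inverted by `z` and
centralised by `b`.  Since `z` is not in a normal `2`-subgroup, it inverts a `q`-element `u ≠ 1`;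
let `F` be a least subgroup of the finite group `⟨a b, b u⟩` which contains `a`, `b` and has `z`
outside `O_2(F)`.  In `F / O_2(F)` there is a `q`-element inverted by `z` and centralised by one of
the reflections `c = b`, `c = z b`, and it lifts to a `q`-element `s` of order `q` which is inverted
by `z c`; the centraliser lemma shows that `s`, and likewise each `q`-element inverted by a
reflection and not centralised by `z` modulo `O_2(F)`, acts on `O_2(F)` without fixed points.  Let
`M` be the abelianisation of `O_2(F)`.  As the commutator subgroup of the `q`-part of `F / O_2(F)`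
is central in it, the conjugates of `s` under `⟨a b⟩` act on `M` by commuting operators, and the
geometric sums of the quotients of two of them vanish.  There is an involution `a_1` which
commutes with `s` and agrees with `c` modulo `O_2(F)`.  If `(a_1 a ^ y) ^ (2 ^ (m + 2)) = 1` for
all `y` in `O_2(F)`, then the sum of the powers of the operator of `c a` annihilates `1 - c`, and
conjugation with the powers of `s` gives `c = 1` on `M`; this is impossible.  So one gets
involutions `a_1`, `b_1 = a ^ y` with a product of larger order, and the centraliser lemma gives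
again the condition on `q`-elements.  As `G` has bounded exponent, the configuration does not occur.

A `q`-element which acts nontrivially on a finite `2`-subgroup would give rise to a configuration
(of a dihedral group of order eight).  So the `q`-elements centralise the finite `2`-subgroups
which they normalise, products of `q`-elements are `q`-elements, and `G` has a normal `q`-subgroup
with a `2`-group as quotient.

For the bounded series see `BoundedSeries` (under this problem).
-/

set_option autoImplicit false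

namespace Pool.Agent.Results.MP_544bd1_al.MetanilpotentTwo

open Pool.Agent.H32BU Pool.Agent.W629 Pool.Agent.TH69.Mtn Pool.Agent.TH69.Pq Pool.Agent.TH69.Ev
open Pool.Agent.TH69.Om

universe u

/-- `n ∈ 𝓛`: every group satisfying `x ^ n = 1` is locally finite. -/
def InL (n : ℕ) : Prop := ∀ (G : Type u) [Group G], (∀ x : G, x ^ n = 1) →
  ∀ S : Set G, S.Finite → Finite (Subgroup.closure S)

/-- A metanilpotent group: it has a nilpotent normal subgroup with nilpotent quotient. -/
def IsMetanilpotent (K : Type u) [Group K] : Prop :=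
  ∃ N : Subgroup K, ∃ _ : N.Normal, Group.IsNilpotent N ∧ Group.IsNilpotent (K ⧸ N)

/-- Groups of type `(2, q, 2)`: there are normal subgroups `P ≤ N` of `K` such that `P` is a
`2`-group, `N / P` is a `q`-group and `K / N` is a `2`-group (for finite soluble `{2, q}`-groups:
the `q`-length is at most one). -/
def TypeTwoQTwo (q : ℕ) (K : Type u) [Group K] : Prop :=
  ∃ P N : Subgroup K, P.Normal ∧ N.Normal ∧ P ≤ N ∧ (∀ x ∈ P, ∃ k : ℕ, x ^ 2 ^ k = 1) ∧
    (∀ x ∈ N, ∃ k : ℕ, x ^ q ^ k ∈ P) ∧ ∀ x : K, ∃ k : ℕ, x ^ 2 ^ k ∈ N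

/-- The condition on the two-generator subgroups: all of them are metanilpotent, or
`n = 2 ^ a * q ^ b` for an odd prime `q` and all of them are of type `(2, q, 2)`. -/
def Condition (n : ℕ) (G : Type u) [Group G] : Prop :=
  (∀ x y : G, IsMetanilpotent (Subgroup.closure {x, y})) ∨
    ∃ q a b : ℕ, q.Prime ∧ q ≠ 2 ∧ n = 2 ^ a * q ^ b ∧
      ∀ x y : G, TypeTwoQTwo q (Subgroup.closure {x, y})

/-- `G` has a normal series `1 = N 0 ≤ N 1 ≤ … ≤ N l = G` such that each factor has an exponent
dividing a prime power which divides `n`. -/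
def HasSeries (n l : ℕ) (G : Type u) [Group G] : Prop :=
  ∃ N : ℕ → Subgroup G, N 0 = ⊥ ∧ N l = ⊤ ∧ ∀ i, (N i).Normal ∧ N i ≤ N (i + 1) ∧
    ∃ p k : ℕ, p.Prime ∧ p ^ k ∣ n ∧ ∀ x ∈ N (i + 1), x ^ p ^ k ∈ N i

theorem rads {n : ℕ} (hn : 1 ≤ n) {G : Type u} [Group G] (hG : ∀ x : G, x ^ n = 1)
    (h2 : ∀ x y : G, Finite (Subgroup.closure {x, y})) (hC : Condition n G)
    (hR : ∀ s : ℕ, s.Prime → Rad (qp s n) G = ⊥) (g : G) : g = 1 := by
  rcases hC with hC | ⟨q, a, b, hq, hq2, rfl, hC⟩
  · exact trivial_of_rad_u hn G hG (fun x y => ⟨h2 x y, hC x y⟩) hR g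
  · have E := ex2 hq hq2 a b
    refine trivial_ev_u E G hG (fun x y => ⟨h2 x y, ?_⟩) hR g
    obtain ⟨P, N, hP, -, -, h6, h7, h8⟩ := hC x y
    exact qlv_of E hG _ P N hP h6 h7 h8

theorem odd_prime (n : ℕ) : ∃ q0 : ℕ, q0.Prime ∧ q0 ≠ 2 ∧ ∀ q a b : ℕ, q.Prime → q ≠ 2 →
    n = 2 ^ a * q ^ b → q = q0 ∨ b = 0 := by
  by_cases h : ∃ q : ℕ, q.Prime ∧ q ≠ 2 ∧ q ∣ n
  · obtain ⟨q0, h1, h2, h3⟩ := h
    refine ⟨q0, h1, h2, fun q a b hq hq2 e => Or.inl ?_⟩
    rw [e] at h3
    rcases h1.dvd_mul.1 h3 with h4 | h4
    · exact absurd ((Nat.prime_dvd_prime_iff_eq h1 Nat.prime_two).1 (h1.dvd_of_dvd_pow h4)) h2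
    · exact ((Nat.prime_dvd_prime_iff_eq h1 hq).1 (h1.dvd_of_dvd_pow h4)).symm
  · refine ⟨3, Nat.prime_three, by norm_num, fun q a b hq hq2 e => Or.inr ?_⟩
    by_contra hb
    exact h ⟨q, hq, hq2, by rw [e]; exact (dvd_pow_self q hb).trans (dvd_mul_left _ _)⟩

/-- Let `n ≥ 1`. (1) Let `G` be a group of exponent dividing `n` all of whose two-generator
subgroups are finite, such that all of them are metanilpotent, or `n = 2 ^ a * q ^ b` for an odd
prime `q` and all of them are of type `(2, q, 2)`. If `G` is nontrivial, then `G` has a nontrivial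
normal subgroup whose exponent divides a prime power dividing `n`. If every prime power dividing
`n` is in `𝓛`, then `G` is locally finite. (2) For each `c` there is `l` such that each such group
`G` whose two-generator subgroups have order at most `c` has a normal series of length `l` such that
the exponent of each factor divides a prime power dividing `n`. -/
theorem result (n : ℕ) (hn : 1 ≤ n) :
    (∀ (G : Type u) [Group G], (∀ x : G, x ^ n = 1) →
      (∀ x y : G, Finite (Subgroup.closure {x, y})) → Condition n G →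
      (Nontrivial G → ∃ p k : ℕ, p.Prime ∧ p ^ k ∣ n ∧
        ∃ N : Subgroup G, N.Normal ∧ N ≠ ⊥ ∧ ∀ x ∈ N, x ^ p ^ k = 1) ∧
      ((∀ p k : ℕ, p.Prime → p ^ k ∣ n → InL.{u} (p ^ k)) →
        ∀ S : Set G, S.Finite → Finite (Subgroup.closure S))) ∧
    ∀ c : ℕ, ∃ l : ℕ, ∀ (G : Type u) [Group G], (∀ x : G, x ^ n = 1) →
      (∀ x y : G, Finite (Subgroup.closure {x, y}) ∧ Nat.card (Subgroup.closure {x, y}) ≤ c) →
      Condition n G → HasSeries n l G := by
  refine ⟨fun G _ hG h2 hC => ⟨fun hnt => ?_, fun hL S hS => ?_⟩, fun c => ?_⟩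
  · by_contra hcon
    push Not at hcon
    obtain ⟨g, hg⟩ := exists_ne (1 : G)
    apply hg
    refine rads hn hG h2 hC (fun s hs => ?_) g
    by_contra hne
    obtain ⟨x, hx, hx'⟩ := hcon s (n.factorization s) hs (Nat.ordProj_dvd n s)
      (Rad (qp s n) G) inferInstance hne
    exact hx' hx.1
  · rcases hC with hC | ⟨q, a, b, hq, hq2, rfl, hC⟩
    · exact lf_meta_u hn (fun p hp => (inL_iff x_LFD _).1 (hL p _ hp (Nat.ordProj_dvd n p))) G hG
        (fun x y => ⟨h2 x y, hC x y⟩) S hS
    · have E := ex2 hq hq2 a b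
      refine lf_ev_u E (fun s _ => locfin_pow hq hq2 a b
        ((inL_iff x_LFD _).1 (hL 2 a Nat.prime_two (dvd_mul_right _ _)))
        ((inL_iff x_LFD _).1 (hL q b hq (dvd_mul_left _ _))) s) G hG (fun x y => ⟨h2 x y, ?_⟩) S hS
      obtain ⟨P, N, hP, -, -, h6, h7, h8⟩ := hC x y
      exact qlv_of E hG _ P N hP h6 h7 h8
  · obtain ⟨l1, hl1⟩ := bounded_MN.{u} hn c
    obtain ⟨q0, hq0, hq02, hun⟩ := odd_prime n
    obtain ⟨l2, hl2⟩ : ∃ l2 : ℕ, ∀ (G : Type u) [Group G], (∀ x : G, x ^ n = 1) →
        (∀ x y : G, Finite (Subgroup.closure {x, y}) ∧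
          Nat.card (Subgroup.closure {x, y}) ≤ c) →
        (∃ q a b : ℕ, q.Prime ∧ q ≠ 2 ∧ n = 2 ^ a * q ^ b ∧
          ∀ x y : G, TypeTwoQTwo q (Subgroup.closure {x, y})) → (RS n G l2).1 = ⊤ := by
      by_cases hE : ∃ a b : ℕ, n = 2 ^ a * q0 ^ b
      · obtain ⟨a0, b0, e0⟩ := hE
        have E : Ex2 q0 n := by
          rw [e0]
          exact ex2 hq0 hq02 a0 b0
        obtain ⟨l2, hl2⟩ := bounded_QLv.{u} E (by omega) c
        refine ⟨l2, fun G _ hG h2 hC => hl2 G hG fun x y => ⟨(h2 x y).1, (h2 x y).2, ?_⟩⟩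
        obtain ⟨q, a, b, hq, hq2, e, hT⟩ := hC
        rcases hun q a b hq hq2 e with rfl | rfl
        · obtain ⟨P, N, hP, -, -, h6, h7, h8⟩ := hT x y
          exact qlv_of E hG _ P N hP h6 h7 h8
        · refine qlv_of E hG _ ⊤ ⊤ inferInstance (fun x _ => ⟨a, ?_⟩)
            (fun x _ => ⟨0, Subgroup.mem_top _⟩) fun x => ⟨0, Subgroup.mem_top _⟩
          have h5 := hG x
          rw [e, pow_zero, mul_one] at h5
          exact Subtype.ext h5
      · refine ⟨0, fun G _ _ _ hC => absurd ?_ hE⟩
        obtain ⟨q, a, b, hq, hq2, e, -⟩ := hC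
        rcases hun q a b hq hq2 e with rfl | rfl
        · exact ⟨a, b, e⟩
        · exact ⟨a, 0, by rw [e, pow_zero, pow_zero]⟩
    refine ⟨max l1 l2, fun G _ hG h2 hC => series ?_⟩
    rw [eq_top_iff]
    rcases hC with hC | hC
    · rw [← hl1 G hG fun x y => ⟨(h2 x y).1, (h2 x y).2, hC x y⟩]
      exact RS_mono (le_max_left _ _)
    · rw [← hl2 G hG h2 hC]
      exact RS_mono (le_max_right _ _)

end Pool.Agent.Results.MP_544bd1_al.MetanilpotentTwo
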