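import Mathlib
import Pool.Agent.TH69.OkF

/-!
# Two generators decide local finiteness, for all odd and many even exponents

Outline.  Let `G` have exponent `n` and finite soluble two-generator subgroups, and let `G` have no
nontrivial normal subgroup of prime power exponent.  It is shown by induction on `n` that `G` is
trivial; so `G` has no nontrivial normal subgroup whose exponent divides `n / p ^ a`, where `p ^ a`
is the `p`-part of `n`.

1. Let `S_p` be the set of the `p`-elements `z` of `G` which lie in `O_{p',p}(E)` for each finite
soluble subgroup `E` containing `z`.  If `x ^ (p ^ a) = 1`, then `z = x ^ (p ^ (a - 1))` is in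
`S_p`, if `n` is odd or `p = 2`.  A `p`-element `z` of a finite soluble group `E` is in
`O_{p',p}(E)` if it is in `O_{p',p}(⟨z, f⟩)` for all `f`, so it suffices to consider the subgroups
`⟨x, f⟩`, and for these it is a case of Theorem B of Hall and Higman, except for `p = 2` and the
following situation: `F` is a homomorphic image of a finite soluble subgroup of `G`, `V` is an
elementary abelian normal `2`-subgroup of `F`, and `L / V` is a `q`-subgroup of `F / V`, where
`q = 2 ^ m - 1` and `2 ^ m` divides `n`, with `C_L(V) = V`, which is normalised, but not centralised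
by `z`.  Then `q ^ 2 ∤ n` by assumption, and this situation is excluded as follows.

Let `s` be an element of `G` of order `q`, `y` any element, and `τ` a `q'`-element which commutes
with `s` and lies in `O_{q'}(K)` for all finite soluble subgroups `K` which contain `s` and `y`.
Then `τ` is in `O_{q'}(C(s))`, since `⟨s t, y⟩` contains `s` and `t`, if `t` is a `q'`-element
commuting with `s`; hence `τ ∈ O_{q'}(G) = 1` by Thompson's `A × B` lemma.  If `q > 3`, the elements
of order `q` are in `S_q`, so this applies if `τ` is in the normal closure of `s` in `⟨s, y⟩`.  Hence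
each `s ∈ L` of order `q` acts without fixed points on `V ∩ N`, where `N` is its normal closure in
`⟨s, x v⟩`, `v ∈ V`.  Let `y ∈ N` be in the second centre of `N` modulo `V`, and `c = [s, y]`.  The
elements `s c ^ i` are conjugate to `s` modulo `V`, so they have no fixed points on `V ∩ N` either;
so `c` centralises `V ∩ N`, and then `V ∩ ⟨s, x v⟩`.  As this holds for all `v`, a counting argument
shows that `c` centralises `V`.  So `N` is abelian modulo `V`, and then it is easy to see that `z`
centralises `N / (V ∩ N)`.  If `q = 3`, this is applied to `τ = [t, c]` and powers of it, where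
`c = [s, r]` is a commutator of two conjugates of `s`, and `t ∈ V ∩ ⟨s, x v⟩` commutes with `s`:
in groups of exponent `3` the commutator of `s` and `r` commutes with all elements which commute
with `s`; so `c` centralises `C_V(s) ∩ ⟨s, x v⟩`, then `V ∩ ⟨s, x v⟩`, and then `V`.

2. For each `p'`-element `e ≠ 1` there is `g ∈ ⟨e, g e g⁻¹⟩` such that this subgroup is not a
`p'`-group (Baer and Suzuki).  If `k` is a `p`-element commuting with `e` and `c` normalises `⟨e⟩`,
then the two-generator group `⟨e k, g c⟩` contains `e`, `k`, `g` and `c`.  Hence if `w ∈ S_q` acts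
nontrivially on a finite `s`-group, it acts irreducibly and without fixed points on a finite
elementary abelian `s`-subgroup `U`, and not by scalars.  So there are no such subgroups if
`w ^ q = 1` and `q ∣ s - 1`.  There are none if `s ^ 2 ∤ n` either: here all elements of order `s`
are in `S_s`, and the subgroup `⟨u, g, w u w⁻¹⟩`, `u ∈ U`, gives a contradiction.

3. If `w ∈ S_q` acts trivially on all finite `q'`-groups, then `w ∈ O_q(G) = 1`.  So for even `n`
there are no involutions in `S_2`, and the exponent can be lowered.  If `n` is odd, there are exactly two primes `p`, `q` whose square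
divides `n` (if the exponent cannot be lowered); the elements `w` of order `q` in `S_q` act
nontrivially only on `p`-groups, so that they lie in `O_{p,q}(E)` for each finite soluble `E`, and
vice versa.  It is shown that elements `z ∈ S_p` and `w ∈ S_q` of orders `p` and `q` commute.
Otherwise one finds (with the roles exchanged, if necessary) a subgroup `U` as above in `⟨z, w⟩`
which is centralised by `z`.  All but at most one of the subgroups `⟨w, z x⟩`, `x ∈ U`, contain
`U`; by counting there is `u ∈ U`, `u ≠ 1`, such that `U ≤ ⟨w, z v ^ i⟩` for all `i` and all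
conjugates `v` of `u` under `⟨w⟩`.  These elements `v` centralise the finite `q`-subgroups
normalised by `z` and `v`; this gives that they commute with the elements `[z, k]`, where `k` is in
a finite `q`-subgroup normalised by `z`, and finally that the subgroups `⟨v, g v g⁻¹⟩` as in 2
commute with them.  Let `X` be the centraliser of all `⟨z, w⟩`-conjugates of such elements
`[z, k]`.  The conjugates of `z` under `⟨z, w⟩` are in `O_p(X⟨z⟩ / Z(X))` in the sense that their
products with elements of exponent `p ^ a` have exponent `p ^ a`.  As `U` is contained in the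
normal closure of `z` in `⟨z, w⟩`, this shows that `⟨u, g u g⁻¹⟩ / Z`, `Z` central, is a
`p`-group, a contradiction.

4. The subgroups generated by the elements of order `p` in `S_p` and by the elements of order `q`
in `S_q` are normal and commute, so that the elements of `S_q` in the first one are in `O_q(G) = 1`;
so its exponent is smaller than that of `G`, and it is trivial by induction.
-/

set_option autoImplicit false

namespace Pool.Agent.Results.MP_544bd1_al.TwoGenerators

open Pool.Agent.H32BU Pool.Agent.W629 Pool.Agent.TH69.Og Pool.Agent.TH69.Ok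

universe u

/-- `n ∈ 𝓛`: every group satisfying `x ^ n = 1` is locally finite. -/
def InL (n : ℕ) : Prop := ∀ (G : Type u) [Group G], (∀ x : G, x ^ n = 1) →
  ∀ S : Set G, S.Finite → Finite (Subgroup.closure S)

/-- The free Burnside group `B_{m,n}`: the free group of rank `m` modulo the normal closure of all
`n`-th powers. -/
abbrev B (m n : ℕ) : Type :=
  FreeGroup (Fin m) ⧸ Subgroup.normalClosure (Set.range fun w : FreeGroup (Fin m) => w ^ n)

/-- The exponents treated here: `n` is not divisible by `2 ^ m * (2 ^ m - 1) ^ 2` for any `m ≥ 2`,
and there are at most two odd primes whose square divides `n`. -/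
def Admissible (n : ℕ) : Prop :=
  (∀ m : ℕ, 2 ≤ m → ¬ 2 ^ m * (2 ^ m - 1) ^ 2 ∣ n) ∧
    ∃ p q : ℕ, ∀ r : ℕ, r.Prime → r ≠ 2 → r ^ 2 ∣ n → r = p ∨ r = q

/-- Every prime power greater than `4` dividing `n` is in `𝓛`. -/
def PrimePowersInL (n : ℕ) : Prop :=
  ∀ p k : ℕ, p.Prime → p ^ k ∣ n → 4 < p ^ k → InL.{u} (p ^ k)

theorem b_finite_of_inL {n : ℕ} (h : InL.{u} n) (m : ℕ) : Finite (B m n) :=
  x_LFD.2.1 n m ((inL_iff x_LFD n).1 h)

/-- (0) Let `m < 11025` be odd. Then `m` and `2 * m` are admissible, and `2 ^ a * m` is admissible
for all `a` if `m` is divisible by none of `9`, `49` and `961`. Let `n ≥ 1` be admissible.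
(1) Let `G` be a group of exponent dividing `n` all of whose two-generator subgroups are finite, and
also soluble if `n` has more than two prime divisors. If `G` is nontrivial, then `G` has a
nontrivial normal subgroup whose exponent divides a prime power dividing `n`. If all prime powers
greater than `4` dividing `n` are in `𝓛`, then `G` is locally finite. (2) Suppose that the
two-generator free Burnside group `B_{2,n}` is soluble or that `n` has at most two prime divisors.
Then `n ∈ 𝓛` if and only if all prime powers greater than `4` dividing `n` are in `𝓛` and `B_{2,n}`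
is finite. -/
theorem result :
    (∀ m : ℕ, Odd m → m < 11025 → Admissible m ∧ Admissible (2 * m) ∧
      (¬ 9 ∣ m → ¬ 49 ∣ m → ¬ 961 ∣ m → ∀ a : ℕ, Admissible (2 ^ a * m))) ∧
    ∀ n : ℕ, 1 ≤ n → Admissible n →
      (∀ (G : Type u) [Group G], (∀ x : G, x ^ n = 1) →
        (∀ x y : G, Finite (Subgroup.closure {x, y})) →
        (n.primeFactors.card ≤ 2 ∨ ∀ x y : G, Group.IsSolvable (Subgroup.closure {x, y})) →
        (Nontrivial G → ∃ p k : ℕ, p.Prime ∧ p ^ k ∣ n ∧
          ∃ N : Subgroup G, N.Normal ∧ N ≠ ⊥ ∧ ∀ x ∈ N, x ^ p ^ k = 1) ∧
        (PrimePowersInL.{u} n → ∀ S : Set G, S.Finite → Finite (Subgroup.closure S))) ∧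
      (n.primeFactors.card ≤ 2 ∨ Group.IsSolvable (B 2 n) →
        (InL.{u} n ↔ PrimePowersInL.{u} n ∧ Finite (B 2 n))) := by
  refine ⟨fun m hm hm2 => ?_, fun n hn hA => ?_⟩
  · have h1 := ce_small hm hm2 (a := 1) (Or.inl le_rfl)
    rw [pow_one] at h1
    have h2 := h1.of_dvd (dvd_mul_left m 2)
    refine ⟨⟨h2.two, h2.sq⟩, ⟨h1.two, h1.sq⟩, fun h9 h49 h961 a => ?_⟩
    have h3 := ce_small hm hm2 (a := a) (Or.inr ⟨h9, h49, h961⟩)
    exact ⟨h3.two, h3.sq⟩
  · have T : TrS n := trS' (by omega) ⟨hA.1, hA.2⟩
    refine ⟨fun G _ hG h2 hs => ⟨fun hnt => exists_normalS T G hG h2 hs hnt, fun hL S hS =>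
      lf_trS_u T (locfin_qp hL) G hG h2 hs S hS⟩, fun hs => ⟨fun h => ⟨?_, b_finite_of_inL h 2⟩, ?_⟩⟩
    · rintro p k - ⟨c, hc⟩ - G _ hG
      exact h G fun x => by rw [hc, pow_mul, hG, one_pow]
    · rintro ⟨h1, h2⟩
      exact (inL_iff x_LFD _).2 (locfin_trS T (locfin_qp h1) hs h2)

end Pool.Agent.Results.MP_544bd1_al.TwoGenerators
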